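import Pool.Agent.Y798.OG.Part
import Pool.Agent.Y798.FC.Law2
import Pool.Agent.Y798.FC.Isol2

/-! Orthogonal groups: no oscillation on a component. -/

set_option autoImplicit false

namespace Pool.Agent.Y445.OG

open Complex Filter Topology MeasureTheory UnitAddTorus NumberField IsDedekindDomain
  Pool.Agent.W540.BE Pool.Agent.TH553.RS Pool.Agent.TH553.ST Pool.Agent.Y798.FC
  Pool.Agent.Y798.OG
open Pool.Agent.Y139.ID (Good good_ev eq_of_fourier integrable_cont_real)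

theorem int_smul {J : Type} [Fintype J] (k : ℕ) (ρ : Measure (UnitAddTorus J))
    (g : UnitAddTorus J → ℂ) : ∫ x, g x ∂((k : ENNReal) • ρ) = (k : ℂ) * ∫ x, g x ∂ρ := by
  rw [integral_smul_measure, ENNReal.toReal_natCast, Complex.real_smul, Complex.ofReal_natCast]

theorem int_smul_real {J : Type} [Fintype J] (k : ℕ) (ρ : Measure (UnitAddTorus J))
    (g : UnitAddTorus J → ℝ) : ∫ x, g x ∂((k : ENNReal) • ρ) = (k : ℝ) * ∫ x, g x ∂ρ := by
  rw [integral_smul_measure, ENNReal.toReal_natCast, smul_eq_mul]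

section
variable {K : Type} [Field K] [NumberField K] {r : ℕ} {W : Subgroup (Auts (Fin r))} [Fintype W]
  {θ : HeightOneSpectrum (𝓞 K) → UnitAddTorus (Fin r)} {a : HeightOneSpectrum (𝓞 K) → ℝ}
  {κ : ℕ} {c : (Fin r → ℤ) → ℤ} {U : Ultrafilter ℝ} {ν : Measure (UnitAddTorus (Fin r))}

/-- the Fourier coefficients of the limits -/
theorem coef [IsFiniteMeasure ν] (hU : (U : Filter ℝ) ≤ 𝓝[>] 0)
    (hν : ∀ f : UnitAddTorus (Fin r) → ℂ, Continuous f →
      Tendsto (cE fun v => (a v : ℂ) * f (θ v)) (U : Filter ℝ) (𝓝 (∫ x, f x ∂ν)))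
    (hc : ∀ μ, Tendsto (cE fun v => (a v : ℂ) * ((κ : ℂ) * orb W μ (θ v))) (𝓝[>] 0)
        (𝓝 (c μ : ℂ))) (μ : Fin r → ℤ) :
    ∫ x, mFourier μ x ∂((κ : ENNReal) • smeas W ν) = c μ := by
  rw [int_smul, smeas_sym W _ (by fun_prop)]
  have h1 : (fun x => sym W (mFourier μ) x) = orb W μ := funext fun x => (orb_eq' μ x).symm
  rw [h1]
  have hWf : Finite W := inferInstance
  have h2 := (hν _ (continuous_orb hWf μ)).const_mul (κ : ℂ)
  refine tendsto_nhds_unique (h2.congr fun ε => ?_) ((hc μ).mono_left hU)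
  rw [← cE_const_mul]
  congr 1
  funext v
  ring

/-- all integers are zero -/
theorem all_zero (hrig : StmRig) (hfej : StmFej) (hfun : StmFun2) (hNI : NoInv W)
    {Φ F : Finset (Fin r → ℤ)}
    (hF : ∀ (ρ : Measure (UnitAddTorus (Fin r))), IsFiniteMeasure ρ →
      (∀ μ : Fin r → ℤ, ∃ n : ℤ, ∫ x, mFourier μ x ∂ρ = n) →
      (∀ μ ∈ F, ∫ x, mFourier μ x ∂ρ = dC Φ μ) →
      ∀ N : C(UnitAddTorus (Fin r), ℂ) →ₗ[ℂ] ℂ,
        (∀ f : C(UnitAddTorus (Fin r), ℂ), ‖N f‖ ≤ ∫ x, ‖f x‖ ∂ρ) →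
        (∀ μ : Fin r → ℤ, ∃ n : ℤ, N (mFourier μ) = n) → N (mFourier 0) ≠ 0 →
        ∃ γ : Fin r → ℤ, dC Φ γ ≠ 0 ∧ (N (mFourier (-γ)) = ρ.real Set.univ ∨
          N (mFourier (-γ)) = -(ρ.real Set.univ : ℂ)))
    (ha : ∀ v, 0 ≤ a v ∧ a v ≤ 1) (hκ : 0 < κ) [IsFiniteMeasure ν]
    (hU : (U : Filter ℝ) ≤ 𝓝[>] 0)
    (hν : ∀ f : UnitAddTorus (Fin r) → ℂ, Continuous f →
      Tendsto (cE fun v => (a v : ℂ) * f (θ v)) (U : Filter ℝ) (𝓝 (∫ x, f x ∂ν)))
    (hc : ∀ μ, Tendsto (cE fun v => (a v : ℂ) * ((κ : ℂ) * orb W μ (θ v))) (𝓝[>] 0)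
        (𝓝 (c μ : ℂ))) (hcF : ∀ μ ∈ F, (c μ : ℂ) = dC Φ μ) {τ : ℝ} (hτ : τ ≠ 0)
    {n : (Fin r → ℤ) → ℤ} (hn : ∀ μ, Tendsto (cE fun v => (a v : ℂ) *
        ((κ : ℂ) * orb W μ (θ v)) * ht τ v) (𝓝[>] 0) (𝓝 (n μ : ℂ))) (μ : Fin r → ℤ) :
    n μ = 0 := by
  classical
  by_contra h0
  have hκ0 : (κ : ℂ) ≠ 0 := by exact_mod_cast hκ.ne'
  set ρ : Measure (UnitAddTorus (Fin r)) := (κ : ENNReal) • smeas W ν with hρ
  have hsf : IsFiniteMeasure (smeas W ν) := smeas_fin W ν
  have hfin : IsFiniteMeasure ρ := by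
    rw [hρ]
    exact Measure.smul_finite _ (ENNReal.natCast_ne_top κ)
  have hco : ∀ μ, ∫ x, mFourier μ x ∂ρ = c μ := fun μ => coef hU hν hc μ
  obtain ⟨N0, hN1, hN2⟩ := hfun K r W θ U hU a ha ν inferInstance hν (ht τ) (norm_ht τ) μ
  have hNv : ∀ lam, ((κ : ℂ) • N0) (mFourier lam) = n (lam + μ) := by
    intro lam
    have h1 := (hN1 (mFourier lam)).const_mul (κ : ℂ)
    rw [LinearMap.smul_apply, smul_eq_mul]
    refine tendsto_nhds_unique h1 (((hn (lam + μ)).mono_left hU).congr fun ε => ?_)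
    rw [← cE_const_mul]
    congr 1
    funext v
    have h2 : orb W (lam + μ) (θ v) = sym W (mFourier lam * mFourier μ :
        C(UnitAddTorus (Fin r), ℂ)) (θ v) := by
      rw [orb_eq']
      unfold sym
      refine Finset.sum_congr rfl fun w _ => ?_
      rw [ContinuousMap.mul_apply, mFourier_add]
    rw [h2]
    ring
  have hdom : ∀ f : C(UnitAddTorus (Fin r), ℂ), ‖((κ : ℂ) • N0) f‖ ≤ ∫ x, ‖f x‖ ∂ρ := by
    intro f
    rw [hρ, int_smul_real, LinearMap.smul_apply, norm_smul, Complex.norm_natCast]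
    exact mul_le_mul_of_nonneg_left (hN2 f) (Nat.cast_nonneg κ)
  obtain ⟨γ, -, hγ⟩ := hF ρ hfin (fun μ => ⟨_, hco μ⟩)
    (fun μ hμ => by rw [hco, hcF μ hμ]) ((κ : ℂ) • N0) hdom (fun lam => ⟨_, hNv lam⟩) (by
      rw [hNv, zero_add]
      exact_mod_cast h0)
  -- the mass
  set m : ℝ := M (nm K) U a with hm
  have hmν : (∫ _x, (1 : ℂ) ∂ν) = (m : ℂ) := by
    have h1 := hν (fun _ => 1) continuous_const
    have h2 : ∀ v, ‖(a v : ℂ) * 1‖ ≤ 1 := by
      intro v
      rw [mul_one, Complex.norm_real, Real.norm_eq_abs, abs_of_nonneg (ha v).1]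
      exact (ha v).2
    have h3 := M_of_cE hU h2 h1
    have h4 : (fun v => ((a v : ℂ) * 1).re) = a := by
      funext v
      rw [mul_one, Complex.ofReal_re]
    rw [h4] at h3
    rw [hm, h3]
    rw [integral_const, Complex.real_smul, mul_one, Complex.ofReal_re]
  have hmass : (ρ.real Set.univ : ℂ) = (κ : ℂ) * (Fintype.card W * m) := by
    rw [← mass_eq, hρ, int_smul, smeas_sym W _ (by fun_prop)]
    congr 1
    have h1 : (fun x => sym W (mFourier 0) x) = fun _ => (Fintype.card W : ℂ) * 1 := by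
      funext x
      unfold sym
      simp [mFourier_zero]
    rw [h1, integral_const_mul, hmν]
  by_cases hm0 : m = 0
  · -- no mass
    have h1 := hdom (mFourier 0)
    have h2 : ∫ x, ‖(mFourier 0 : C(UnitAddTorus (Fin r), ℂ)) x‖ ∂ρ = ρ.real Set.univ := by
      simp only [norm_mF]
      simp
    have h3 : ρ.real Set.univ = 0 := by
      rw [hm0] at hmass
      simp only [Complex.ofReal_zero, mul_zero] at hmass
      exact_mod_cast hmass
    rw [h2, h3, hNv, zero_add] at h1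
    have h4 : (n μ : ℂ) = 0 := norm_le_zero_iff.1 h1
    exact h0 (by exact_mod_cast h4)
  set lam := -γ + μ with hlam
  obtain ⟨s, hs, hsn⟩ : ∃ s : ℂ, (s = 1 ∨ s = -1) ∧
      (n lam : ℂ) = s * ((κ : ℂ) * (Fintype.card W * m)) := by
    rw [hNv, hmass] at hγ
    rcases hγ with h | h
    · exact ⟨1, Or.inl rfl, by rw [h, one_mul]⟩
    · exact ⟨-1, Or.inr rfl, by rw [h]; ring⟩
  have hss : s * s = 1 := by rcases hs with h | h <;> rw [h] <;> ring
  have hsn1 : ‖s‖ = 1 := by rcases hs with h | h <;> rw [h] <;> simp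
  set u : W → HeightOneSpectrum (𝓞 K) → ℂ := fun w v =>
    s * (mFourier ((w : Auts (Fin r)) lam) (θ v) * ht τ v) with hu
  have hunorm : ∀ w v, ‖u w v‖ = 1 := by
    intro w v
    rw [hu]
    simp only
    rw [norm_mul, norm_mul, norm_mF, norm_ht, hsn1]
    norm_num
  have husum : ∀ v, ∑ w, u w v = s * (orb W lam (θ v) * ht τ v) := by
    intro v
    rw [orb_eq, Finset.sum_mul, Finset.mul_sum]
  have h1 : Tendsto (cE fun v => (a v : ℂ) * ∑ w, u w v) (U : Filter ℝ)
      (𝓝 ((Fintype.card W * m : ℝ) : ℂ)) := by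
    have h2 := ((hn lam).mono_left hU).const_mul (s * (κ : ℂ)⁻¹)
    have e : s * (κ : ℂ)⁻¹ * (n lam : ℂ) = ((Fintype.card W * m : ℝ) : ℂ) := by
      rw [hsn]
      push_cast
      calc s * (κ : ℂ)⁻¹ * (s * ((κ : ℂ) * ((Fintype.card W : ℂ) * (m : ℂ))))
          = (s * s) * ((κ : ℂ)⁻¹ * (κ : ℂ)) * ((Fintype.card W : ℂ) * (m : ℂ)) := by ring
        _ = (Fintype.card W : ℂ) * (m : ℂ) := by rw [hss, inv_mul_cancel₀ hκ0]; ring
    rw [e] at h2
    refine h2.congr fun ε => ?_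
    rw [← cE_const_mul]
    congr 1
    funext v
    rw [husum v]
    field_simp
  have h2 : M (nm K) U (fun v => a v * (∑ w, u w v).re) = Fintype.card W * m := by
    have h3 := M_of_cE hU (B := Fintype.card W) (fun v => by
      rw [norm_mul, Complex.norm_real, Real.norm_eq_abs, abs_of_nonneg (ha v).1]
      have h4 : ‖∑ w, u w v‖ ≤ Fintype.card W := by
        refine (norm_sum_le _ _).trans ?_
        simp [hunorm]
      calc a v * ‖∑ w, u w v‖ ≤ 1 * ‖∑ w, u w v‖ :=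
            mul_le_mul_of_nonneg_right (ha v).2 (norm_nonneg _)
        _ ≤ Fintype.card W := by rw [one_mul]; exact h4) h1
    rw [Complex.ofReal_re] at h3
    rw [← h3]
    congr 1
    funext v
    rw [Complex.re_ofReal_mul]
  have h3 := hrig K U hU a ha W u hunorm h2
  have hsum0 : ∑ w : W, (w : Auts (Fin r)) lam = 0 := by
    refine hNI _ fun w hw => ?_
    rw [map_sum]
    refine Fintype.sum_equiv (Equiv.mulLeft (⟨w, hw⟩ : W)) _ _ fun w' => rfl
  have hprod : ∀ v, ∏ w, u w v = s ^ Fintype.card W * ht (Fintype.card W * τ) v := by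
    intro v
    rw [hu]
    simp only
    rw [Finset.prod_mul_distrib, Finset.prod_mul_distrib, Finset.prod_const, Finset.prod_const,
      Finset.card_univ, ht_pow]
    have h4 : ∏ w : W, mFourier ((w : Auts (Fin r)) lam) (θ v) = 1 := by
      have h5 : ∀ T : Finset W, ∏ w ∈ T, mFourier ((w : Auts (Fin r)) lam) (θ v) =
          mFourier (∑ w ∈ T, (w : Auts (Fin r)) lam) (θ v) := by
        intro T
        induction T using Finset.induction_on with
        | empty => simp [mFourier_zero]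
        | insert a T ha ih => rw [Finset.prod_insert ha, Finset.sum_insert ha, mFourier_add, ih]
      rw [h5, hsum0, mFourier_zero]
      rfl
    rw [h4, one_mul]
  have hW0 : (Fintype.card W : ℝ) * τ ≠ 0 :=
    mul_ne_zero (by exact_mod_cast Fintype.card_ne_zero) hτ
  obtain ⟨t, ht1, ht2⟩ : ∃ t : ℝ, (t = 1 ∨ t = -1) ∧ s ^ Fintype.card W = t := by
    rcases hs with h | h
    · exact ⟨1, Or.inl rfl, by rw [h]; simp⟩
    · rcases neg_one_pow_eq_or ℂ (Fintype.card W) with h' | h'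
      · exact ⟨1, Or.inl rfl, by rw [h, h']; simp⟩
      · exact ⟨-1, Or.inr rfl, by rw [h, h']; simp⟩
  have h5 : (fun v => a v * (∏ w, u w v).re) =
      fun v => a v * (t * (ht (Fintype.card W * τ) v).re) := by
    funext v
    rw [hprod, ht2, Complex.re_ofReal_mul]
  rw [h5] at h3
  exact hm0 (hfej K U hU a ha _ hW0 t ht1 h3)

end

theorem t (hdiv : StmDiv) (hfej : StmFej) (hrig : StmRig) (hfun : StmFun2) : StmVan := by
  classical
  intro r W hWfin hNI Φ hΦ
  let _ : Fintype W := Fintype.ofFinite W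
  obtain ⟨F, hF⟩ := isolate hdiv hΦ
  refine ⟨F, fun K _ _ θ a ha κ hκ hlaw c hc hcF τ hτ hn f hf hfW => ?_⟩
  choose n hn using hn
  have hcard : (Nat.card W : ℂ) ≠ 0 := by
    have : Nat.card W ≠ 0 := Nat.card_pos.ne'
    exact_mod_cast this
  have hκ0 : (κ : ℂ) ≠ 0 := by exact_mod_cast hκ.ne'
  rw [tendsto_iff_ultrafilter]
  intro U hU
  obtain ⟨ν, hνf, hν⟩ := hlaw U hU
  have hzero : ∀ μ, n μ = 0 := fun μ =>
    all_zero hrig hfej hfun hNI hF ha hκ hU hν hc hcF hτ hn μ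
  have hsf : IsFiniteMeasure (smeas W ν) := smeas_fin W ν
  obtain ⟨N, hN1, hN2⟩ := hfun K r W θ U hU a ha ν hνf hν (ht τ) (norm_ht τ) 0
  have hNv : ∀ lam, N (mFourier lam) = 0 := by
    intro lam
    have h1 := (hN1 (mFourier lam)).const_mul (κ : ℂ)
    have h2 : (κ : ℂ) * N (mFourier lam) = (n lam : ℂ) := by
      refine tendsto_nhds_unique h1 (((hn lam).mono_left hU).congr fun ε => ?_)
      rw [← cE_const_mul]
      congr 1
      funext v
      have h2 : orb W lam (θ v) = sym W (mFourier lam * mFourier 0 :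
          C(UnitAddTorus (Fin r), ℂ)) (θ v) := by
        rw [orb_eq']
        unfold sym
        refine Finset.sum_congr rfl fun w _ => ?_
        rw [ContinuousMap.mul_apply, ← mFourier_add, add_zero]
      rw [h2]
      ring
    rw [hzero, Int.cast_zero] at h2
    exact (mul_eq_zero.1 h2).resolve_left hκ0
  have hN0 : N = 0 := by
    refine eq_of_fourier N 0 ((smeas W ν).real Set.univ) 0 (fun g => ?_) (fun g => ?_)
      (fun lam => ?_)
    · refine (hN2 g).trans ?_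
      calc ∫ x, ‖g x‖ ∂(smeas W ν) ≤ ∫ _x, ‖g‖ ∂(smeas W ν) := by
            refine integral_mono (integrable_cont_real _ (by fun_prop)) (integrable_const _)
              fun x => g.norm_coe_le_norm x
        _ = _ := by
            rw [integral_const, smul_eq_mul]
    · rw [LinearMap.zero_apply, norm_zero, zero_mul]
    · rw [hNv, LinearMap.zero_apply]
  have h1 := hN1 ⟨f, hf⟩
  rw [hN0, LinearMap.zero_apply] at h1
  have h2 := h1.const_mul ((Nat.card W : ℂ)⁻¹)
  rw [mul_zero] at h2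
  refine h2.congr fun ε => ?_
  rw [← cE_const_mul]
  congr 1
  funext v
  have h3 : sym W ((⟨f, hf⟩ : C(UnitAddTorus (Fin r), ℂ)) * mFourier 0 :
      C(UnitAddTorus (Fin r), ℂ)) (θ v) = (Nat.card W : ℂ) * f (θ v) := by
    rw [← sym_inv W hfW (θ v)]
    unfold sym
    refine Finset.sum_congr rfl fun w _ => ?_
    rw [ContinuousMap.mul_apply, mFourier_zero]
    simp
  rw [h3]
  field_simp

end Pool.Agent.Y445.OG
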